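import Pool.Agent.H76.QE.Targets3
import Pool.Agent.H21.QD.KFB

/-!
# Row LVB of the board qd_modules: the kernel of the violated part
-/

set_option autoImplicit false

open Finset Pool.Agent.H76.QE
open Pool.Agent.H1.LP (supp ip comb kk)
open H43.PS (PosDeg Low av)
open Pool.Agent.H73.OX (ch)
open Pool.Agent.H21.QD (std_sum supp_eq)

namespace Pool.Agent.H33.QD

theorem sum_std {p : ℕ} [Fact p.Prime] (u : ZMod p) :
    ∑ s : ZMod p, (ZMod.stdAddChar (s * u) : ℂ) = if u = 0 then (p : ℂ) else 0 := by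
  classical
  rw [AddChar.sum_mulShift u (ZMod.isPrimitive_stdAddChar p), ZMod.card]
  split_ifs <;> simp

theorem inv2 {p : ℕ} [Fact p.Prime] (b0 b1 t t' : ZMod p) (hc : t' - b1 = (t - b0) ^ 2) :
    ∑ s : ZMod p, ∑ s' : ZMod p, PH b0 b1 s s' *
      (ZMod.stdAddChar (s * t + s' * t') : ℂ) = 0 := by
  classical
  obtain ⟨F, hF⟩ : ∃ F : ZMod p × ZMod p → ZMod p × ZMod p → ℂ, F = fun q r =>
      (if r.2 - b1 ≠ (r.1 - b0) ^ 2 then (ZMod.stdAddChar (-(q.1 * r.1 + q.2 * r.2)) : ℂ) else 0) *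
        (ZMod.stdAddChar (q.1 * t + q.2 * t') : ℂ) := ⟨_, rfl⟩
  have h1 : ∑ s : ZMod p, ∑ s' : ZMod p, PH b0 b1 s s' *
      (ZMod.stdAddChar (s * t + s' * t') : ℂ) =
      ∑ q : ZMod p × ZMod p, ((p : ℂ) ^ 2)⁻¹ * ∑ r : ZMod p × ZMod p, F q r := by
    rw [Fintype.sum_prod_type]
    refine sum_congr rfl fun s _ => sum_congr rfl fun s' _ => ?_
    rw [Fintype.sum_prod_type, PH, mul_assoc, sum_mul]
    congr 1
    refine sum_congr rfl fun y _ => ?_
    rw [sum_mul]
    refine sum_congr rfl fun y' _ => ?_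
    rw [hF]
  rw [h1, ← mul_sum, sum_comm]
  have h2 : ∀ r : ZMod p × ZMod p, ∑ q : ZMod p × ZMod p, F q r = 0 := by
    intro r
    by_cases hr : r.2 - b1 ≠ (r.1 - b0) ^ 2
    · have h3 : ∀ q : ZMod p × ZMod p, F q r = (ZMod.stdAddChar (q.1 * (t - r.1)) : ℂ) *
          (ZMod.stdAddChar (q.2 * (t' - r.2)) : ℂ) := by
        intro q
        rw [hF]
        simp only
        rw [if_pos hr, ← AddChar.map_add_eq_mul, ← AddChar.map_add_eq_mul]
        congr 1
        ring
      rw [sum_congr rfl fun q _ => h3 q, Fintype.sum_prod_type]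
      simp only
      simp_rw [← mul_sum]
      rw [← sum_mul, sum_std, sum_std]
      by_cases h4 : t - r.1 = 0
      · by_cases h5 : t' - r.2 = 0
        · exfalso
          apply hr
          rw [← sub_eq_zero.1 h4, ← sub_eq_zero.1 h5]
          exact hc
        · rw [if_neg h5, mul_zero]
      · rw [if_neg h4, zero_mul]
    · refine sum_eq_zero fun q _ => ?_
      rw [hF]
      simp only
      rw [if_neg hr, zero_mul]
  rw [sum_eq_zero fun r _ => h2 r, mul_zero]

theorem norm_PH {p : ℕ} [Fact p.Prime] (b0 b1 s s' : ZMod p) : ‖PH b0 b1 s s'‖ ≤ 1 := by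
  classical
  have hp : (0 : ℝ) < p := by exact_mod_cast (Fact.out : p.Prime).pos
  have h1 : ‖∑ y : ZMod p, ∑ y' : ZMod p,
      (if y' - b1 ≠ (y - b0) ^ 2 then (ZMod.stdAddChar (-(s * y + s' * y')) : ℂ) else 0)‖ ≤
      (p : ℝ) ^ 2 := by
    calc _ ≤ ∑ y : ZMod p, ∑ y' : ZMod p, (1 : ℝ) := by
          refine (norm_sum_le _ _).trans (sum_le_sum fun y _ => ?_)
          refine (norm_sum_le _ _).trans (sum_le_sum fun y' _ => ?_)
          split_ifs
          · rw [AddChar.norm_apply]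
          · rw [norm_zero]
            exact zero_le_one
      _ = (p : ℝ) ^ 2 := by
          simp only [sum_const, card_univ, ZMod.card, nsmul_eq_mul, mul_one]
          ring
  rw [PH, norm_mul, norm_inv, norm_pow, Complex.norm_natCast]
  rw [inv_mul_le_iff₀ (by positivity), mul_one]
  exact h1

theorem supp_sub_card {p M : ℕ} (C : Fin M → ZMod p) (a a' : Fin M) (s s' : ZMod p) :
    (supp (C - Pi.single a s - Pi.single a' s')).card ≤ (supp C).card + 2 := by
  classical
  have h1 : supp (C - Pi.single a s - Pi.single a' s') ⊆ supp C ∪ {a, a'} := by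
    intro j hj
    rw [mem_union, mem_insert, mem_singleton]
    by_contra hc
    push Not at hc
    obtain ⟨h1, h2, h3⟩ := hc
    have h4 : C j = 0 := by
      by_contra h
      exact h1 (mem_filter.2 ⟨mem_univ _, h⟩)
    have h5 := (mem_filter.1 hj).2
    apply h5
    rw [Pi.sub_apply, Pi.sub_apply, h4, Pi.single_eq_of_ne h2, Pi.single_eq_of_ne h3]
    ring
  refine (card_le_card h1).trans ((card_union_le _ _).trans ?_)
  exact Nat.add_le_add_left (card_le_two) _

/-- the weight function of the letter `x i` -/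
noncomputable def Wf {p R : ℕ} [NeZero p] (b : Fin (R + R) → ZMod p) (i : Fin R) (τ : ℕ)
    (C : Fin (R + R) → ZMod p) (y : ZMod p) : ℂ :=
  ∑ s : ZMod p, ∑ s' : ZMod p,
    if (supp (C - Pi.single (Fin.castAdd R i) s - Pi.single (Fin.natAdd R i) s')).card ≤ τ then
      PH (b (Fin.castAdd R i)) (b (Fin.natAdd R i)) s s' *
        ZMod.stdAddChar (s * (b (Fin.castAdd R i) + y) + s' * (b (Fin.natAdd R i) + y ^ 2))
    else 0

theorem KX_eq {p R : ℕ} [NeZero p] (b : Fin (R + R) → ZMod p) (i : Fin R) (τ : ℕ)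
    (C : Fin (R + R) → ZMod p) :
    KX b i τ C = ((p : ℂ) ^ R)⁻¹ * ∑ x : Fin R → ZMod p, ZMod.stdAddChar (-ip C (sh b x)) *
      Wf b i τ C (x i) := by
  unfold KX Wf sh
  simp only [Fin.addCases_left, Fin.addCases_right]

theorem norm_Wf {p R : ℕ} [Fact p.Prime] (b : Fin (R + R) → ZMod p) (i : Fin R) (τ : ℕ)
    (C : Fin (R + R) → ZMod p) (y : ZMod p) : ‖Wf b i τ C y‖ ≤ (p : ℝ) ^ 2 := by
  classical
  calc _ ≤ ∑ s : ZMod p, ∑ s' : ZMod p, (1 : ℝ) := by
        unfold Wf
        refine (norm_sum_le _ _).trans (sum_le_sum fun s _ => ?_)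
        refine (norm_sum_le _ _).trans (sum_le_sum fun s' _ => ?_)
        split_ifs
        · rw [norm_mul, AddChar.norm_apply, mul_one]
          exact norm_PH _ _ _ _
        · rw [norm_zero]
          exact zero_le_one
    _ = (p : ℝ) ^ 2 := by
        simp only [sum_const, card_univ, ZMod.card, nsmul_eq_mul, mul_one]
        ring

theorem Wf_zero {p R : ℕ} [Fact p.Prime] (b : Fin (R + R) → ZMod p) (i : Fin R) (τ : ℕ)
    (C : Fin (R + R) → ZMod p) (hC : (supp C).card + 2 ≤ τ) (y : ZMod p) :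
    Wf b i τ C y = 0 := by
  unfold Wf
  have h1 : ∀ s s' : ZMod p,
      (supp (C - Pi.single (Fin.castAdd R i) s - Pi.single (Fin.natAdd R i) s')).card ≤ τ :=
    fun s s' => (supp_sub_card C _ _ s s').trans hC
  simp only [h1, if_true]
  exact inv2 _ _ _ _ (by ring)

theorem std_split {p R : ℕ} [Fact p.Prime] (b C : Fin (R + R) → ZMod p) (x : Fin R → ZMod p) :
    (ZMod.stdAddChar (-ip C (sh b x)) : ℂ) =
      ZMod.stdAddChar (-ip C b) * ∏ i : Fin R, (ZMod.stdAddChar
        (-C (Fin.castAdd R i) * x i + -C (Fin.natAdd R i) * x i ^ 2) : ℂ) := by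
  rw [← std_sum, ← AddChar.map_add_eq_mul]
  congr 1
  unfold ip
  rw [Fin.sum_univ_add, Fin.sum_univ_add]
  unfold sh
  simp only [Fin.addCases_left, Fin.addCases_right]
  rw [sum_add_distrib]
  have e1 : ∑ i : Fin R, C (Fin.castAdd R i) * (b (Fin.castAdd R i) + x i) =
      ∑ i : Fin R, C (Fin.castAdd R i) * b (Fin.castAdd R i) +
      ∑ i : Fin R, C (Fin.castAdd R i) * x i := by
    rw [← sum_add_distrib]
    exact sum_congr rfl fun i _ => by ring
  have e2 : ∑ i : Fin R, C (Fin.natAdd R i) * (b (Fin.natAdd R i) + x i ^ 2) =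
      ∑ i : Fin R, C (Fin.natAdd R i) * b (Fin.natAdd R i) +
      ∑ i : Fin R, C (Fin.natAdd R i) * x i ^ 2 := by
    rw [← sum_add_distrib]
    exact sum_congr rfl fun i _ => by ring
  have e3 : ∑ i : Fin R, -C (Fin.castAdd R i) * x i = -∑ i : Fin R, C (Fin.castAdd R i) * x i := by
    rw [← sum_neg_distrib]
    exact sum_congr rfl fun i _ => by ring
  have e4 : ∑ i : Fin R, -C (Fin.natAdd R i) * x i ^ 2 =
      -∑ i : Fin R, C (Fin.natAdd R i) * x i ^ 2 := by
    rw [← sum_neg_distrib]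
    exact sum_congr rfl fun i _ => by ring
  rw [e1, e2, e3, e4]
  ring

theorem norm_KX {p R : ℕ} [Fact p.Prime] (b : Fin (R + R) → ZMod p) (i : Fin R) (τ : ℕ)
    (C : Fin (R + R) → ZMod p) :
    ‖KX b i τ C‖ = ∏ j : Fin R, (‖∑ y : ZMod p, (ZMod.stdAddChar
      (-C (Fin.castAdd R j) * y + -C (Fin.natAdd R j) * y ^ 2) : ℂ) *
        (if j = i then Wf b i τ C y else 1)‖ / p) := by
  classical
  have h1 : ∀ x : Fin R → ZMod p, (ZMod.stdAddChar (-ip C (sh b x)) : ℂ) * Wf b i τ C (x i) =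
      ZMod.stdAddChar (-ip C b) * ∏ j : Fin R, ((ZMod.stdAddChar
        (-C (Fin.castAdd R j) * x j + -C (Fin.natAdd R j) * x j ^ 2) : ℂ) *
        (if j = i then Wf b i τ C (x j) else 1)) := by
    intro x
    rw [std_split, prod_mul_distrib, prod_ite_eq' univ i (fun j => Wf b i τ C (x j)),
      if_pos (mem_univ i), mul_assoc]
  have h2 : ∑ x : Fin R → ZMod p, ∏ j : Fin R, ((ZMod.stdAddChar
      (-C (Fin.castAdd R j) * x j + -C (Fin.natAdd R j) * x j ^ 2) : ℂ) *
        (if j = i then Wf b i τ C (x j) else 1)) =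
      ∏ j : Fin R, ∑ y : ZMod p, ((ZMod.stdAddChar
        (-C (Fin.castAdd R j) * y + -C (Fin.natAdd R j) * y ^ 2) : ℂ) *
        (if j = i then Wf b i τ C y else 1)) := by
    rw [prod_univ_sum, Fintype.piFinset_univ]
  rw [KX_eq]
  simp only [h1]
  rw [← mul_sum, h2, norm_mul, norm_mul, AddChar.norm_apply, one_mul, norm_prod, norm_inv,
    norm_pow, Complex.norm_natCast, prod_div_distrib, prod_const, card_univ, Fintype.card_fin]
  rw [inv_mul_eq_div]

theorem pf_LVB (hG : T_GSU) : T_LVB := by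
  classical
  intro p R τ hpp b i C hp2
  have hp : (0 : ℝ) < p := by exact_mod_cast (Fact.out : p.Prime).pos
  have hp1 : (1 : ℝ) ≤ p := by exact_mod_cast (Fact.out : p.Prime).one_lt.le
  refine ⟨fun hC => ?_, ?_⟩
  · rw [KX_eq]
    simp only [Wf_zero b i τ C hC, mul_zero, sum_const_zero]
  rw [norm_KX, supp_eq, ← prod_pow, ← prod_pow_eq_pow_sum, ← prod_mul_distrib]
  have hq : ∏ j : Fin R, (if j = i then (p : ℝ) ^ 10 else 1) = (p : ℝ) ^ 10 := by
    rw [prod_ite_eq' univ i (fun _ => (p : ℝ) ^ 10), if_pos (mem_univ i)]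
  rw [← hq]
  refine prod_le_prod (fun j _ => by positivity) fun j _ => ?_
  have h3 : (p : ℝ) ^ ((if C (Fin.castAdd R j) ≠ 0 then 1 else 0) +
      (if C (Fin.natAdd R j) ≠ 0 then 1 else 0)) ≤ (p : ℝ) ^ 2 := by
    refine pow_le_pow_right₀ hp1 ?_
    split_ifs <;> norm_num
  by_cases hji : j = i
  · simp only [if_pos hji]
    have h4 : ‖∑ y : ZMod p, (ZMod.stdAddChar
        (-C (Fin.castAdd R j) * y + -C (Fin.natAdd R j) * y ^ 2) : ℂ) * Wf b i τ C y‖ / p ≤
        (p : ℝ) ^ 2 := by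
      rw [div_le_iff₀ hp]
      calc _ ≤ ∑ y : ZMod p, (p : ℝ) ^ 2 := by
            refine (norm_sum_le _ _).trans (sum_le_sum fun y _ => ?_)
            rw [norm_mul, AddChar.norm_apply, one_mul]
            exact norm_Wf b i τ C y
        _ = (p : ℝ) ^ 2 * p := by
            simp only [sum_const, card_univ, ZMod.card, nsmul_eq_mul]
            ring
    calc _ ≤ ((p : ℝ) ^ 2) ^ 4 * (p : ℝ) ^ 2 :=
          mul_le_mul (pow_le_pow_left₀ (by positivity) h4 4) h3 (by positivity) (by positivity)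
      _ = (p : ℝ) ^ 10 := by ring
  · simp only [if_neg hji, mul_one]
    by_cases h : C (Fin.castAdd R j) = 0 ∧ C (Fin.natAdd R j) = 0
    · rw [if_neg (fun h' => h' h.1), if_neg (fun h' => h' h.2), h.1, h.2]
      have e1 : ∑ y : ZMod p, (ZMod.stdAddChar (-(0 : ZMod p) * y + -0 * y ^ 2) : ℂ) = p := by
        simp [ZMod.card]
      rw [e1, Complex.norm_natCast, div_self hp.ne']
      norm_num
    · have h1 := hG p hp2 (-C (Fin.castAdd R j)) (-C (Fin.natAdd R j)) (by
        by_contra hc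
        push Not at hc
        exact h ⟨neg_eq_zero.1 hc.1, neg_eq_zero.1 hc.2⟩)
      obtain ⟨s, hs⟩ : ∃ s, s = ‖∑ y : ZMod p, (ZMod.stdAddChar
        (-C (Fin.castAdd R j) * y + -C (Fin.natAdd R j) * y ^ 2) : ℂ)‖ := ⟨_, rfl⟩
      rw [← hs] at h1 ⊢
      have h0 : 0 ≤ s := by rw [hs]; exact norm_nonneg _
      have h4 : (s / p) ^ 4 ≤ 1 / (p : ℝ) ^ 2 := by
        rw [div_pow, div_le_div_iff₀ (by positivity) (by positivity)]
        have h5 : s ^ 4 ≤ (p : ℝ) ^ 2 := by
          have : s ^ 4 = (s ^ 2) ^ 2 := by ring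
          rw [this]
          exact pow_le_pow_left₀ (by positivity) h1 2
        nlinarith [pow_pos hp 2]
      refine le_trans (mul_le_mul h4 h3 (by positivity) (by positivity)) ?_
      rw [one_div, inv_mul_cancel₀ (by positivity)]

end Pool.Agent.H33.QD
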